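import Pool.Agent.Lib.MP_f6c7cf_nt.HC.End

/-! Every long binary string is within Hamming distance `0.2486 n` of many large primes. -/

namespace Pool.Agent.Results.MP_f6c7cf_nt.FewOnes

open Finset

open scoped Classical in
theorem result : ∃ N : ℕ, ∀ n ≥ N, ∀ w < 2 ^ n, (2 : ℝ) ^ (585 / 1000 * n : ℝ) ≤
    #{p ∈ range (2 ^ n) | p.Prime ∧ (2 : ℝ) ^ (99999 / 100000 * n : ℝ) < (p : ℕ) ∧
      (#{i ∈ range n | Nat.testBit p i ≠ Nat.testBit w i} : ℝ) ≤ 2486 / 10000 * n} := by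
  obtain ⟨N, h⟩ := Pool.Agent.Lib.MP_f6c7cf_nt.HC.cover
  refine ⟨N, fun n hn w hw => (h n hn w hw).trans (Nat.cast_le.2 (card_le_card fun p hp => ?_))⟩
  obtain ⟨a, b, c, d⟩ := mem_filter.1 hp
  refine mem_filter.2 ⟨a, b, c, le_trans (Nat.cast_le.2 ?_) d⟩
  refine le_trans (le_of_eq (congrArg card (filter_congr fun i _ => ?_)))
    (Pool.Agent.Lib.MP_f6c7cf_nt.HC.card_bits n (p ^^^ w))
  rw [Nat.testBit_xor]
  cases p.testBit i <;> cases w.testBit i <;> simp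

end Pool.Agent.Results.MP_f6c7cf_nt.FewOnes
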