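import Pool.Agent.Lib.MP_f6c7cf_nt.HC.End
import Pool.Agent.Lib.MP_f6c7cf_nt.MS.Pad

/-! The problem with `k` squares in place of three. -/

namespace Pool.Agent.Results.MP_f6c7cf_nt.ManySquares

open Finset Pool.Agent.Lib.MP_f6c7cf_nt

theorem result : ∃ N : ℕ, ∀ n ≥ N, ∃ (k : ℕ) (x : Fin k → ℕ) (w : ℕ),
    n = ∑ i, x i ^ 2 + 4 * w ^ 2 ∧ Nat.Prime (∑ i, 2 ^ x i + 1) ∧
      (k : ℝ) ≤ 2487 / 10000 * Real.logb 2 ((∑ i, 2 ^ x i + 1 : ℕ) : ℝ) ∧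
      Real.logb 2 ((∑ i, 2 ^ x i + 1 : ℕ) : ℝ) ≤ 7000 * (n : ℝ) ^ (1 / 6 : ℝ) := by
  classical
  obtain ⟨N, hN⟩ := HC.cover
  refine ⟨10 ^ 10 * (1000000 + N) ^ 6 + 1, fun n hn => ?_⟩
  have ex : ∃ t : ℕ, n ≤ 10 ^ 10 * t ^ 6 :=
    ⟨n, (Nat.le_self_pow (by norm_num) n).trans (Nat.le_mul_of_pos_left _ (by norm_num))⟩
  obtain ⟨t, h1, h2⟩ : ∃ t : ℕ, n ≤ 10 ^ 10 * t ^ 6 ∧ ∀ u < t, ¬ n ≤ 10 ^ 10 * u ^ 6 :=
    ⟨Nat.find ex, Nat.find_spec ex, fun u hu => Nat.find_min ex hu⟩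
  have ht : 1000000 + N < t := by
    by_contra h
    have := Nat.mul_le_mul_left (10 ^ 10) (Nat.pow_le_pow_left (not_lt.1 h) 6)
    omega
  have h3 : 10 ^ 10 * (t - 1) ^ 6 ≤ n := (not_le.1 (h2 (t - 1) (by omega))).le
  have h4 := hN (300000 * t) (by omega) 0 (by positivity)
  obtain ⟨p, hp⟩ := card_pos.1 (Nat.cast_pos.1 ((Real.rpow_pos_of_pos two_pos _).trans_le h4))
  obtain ⟨p1, p2, p3, p4⟩ := mem_filter.1 hp
  rw [mem_range] at p1
  have p0 : (0 : ℝ) < p := Nat.cast_pos.2 p2.pos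
  have l1 : (299997 : ℝ) * t < Real.logb 2 p := by
    have := (Real.lt_logb_iff_rpow_lt one_lt_two p0).2 p3
    push_cast at this
    linarith
  have l2 : ∀ a : ℕ, p < 2 ^ a → Real.logb 2 p < a := fun a ha =>
    (Real.logb_lt_iff_lt_rpow one_lt_two p0).2 (by rw [Real.rpow_natCast]; exact_mod_cast ha)
  have t1 := Nat.pow_log_le_self 2 p2.ne_zero
  have t2 := Nat.lt_pow_succ_log_self one_lt_two p
  have t3 : 299997 * t < Nat.log 2 p + 1 := by exact_mod_cast l1.trans (l2 _ t2)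
  have od : p % 2 = 1 := p2.eq_two_or_odd.resolve_left fun h => by
    rw [h] at t3
    have : Nat.log 2 2 = 1 := by norm_num
    omega
  obtain ⟨V, S, w, ⟨l, a, b, c⟩, d, e⟩ := MS.main t n p (Nat.log 2 p) (by omega) h3 h1 od t1 t2
    (by omega) ((Nat.pow_lt_pow_iff_right one_lt_two).1 (t1.trans_lt p1))
  have s1 : ∑ i : Fin l.length, 2 ^ l[i.1] + 1 = p := by
    rw [Fin.sum_univ_fun_getElem l fun a => 2 ^ a, b, d]
  have s2 : ∑ i : Fin l.length, l[i.1] ^ 2 = S := by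
    rw [Fin.sum_univ_fun_getElem l fun a => a ^ 2, c]
  refine ⟨l.length, fun i => l[i.1], w, by rw [s2, e], by rwa [s1], ?_, ?_⟩
  · rw [s1]
    have cb := HC.card_bits (300000 * t) p
    rw [HC.hd, Nat.xor_zero] at p4
    have a' : (l.length : ℝ) ≤ (FO.s2 p : ℕ) + 22 * t := by
      exact_mod_cast a.trans (Nat.add_le_add_right cb _)
    push_cast at p4
    have : (0 : ℝ) ≤ t := Nat.cast_nonneg t
    linarith
  · rw [s1]
    have a1 := l2 _ p1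
    obtain ⟨u, rfl⟩ : ∃ u, t = u + 1 := ⟨t - 1, by omega⟩
    rw [Nat.add_sub_cancel] at h3
    have a2 : ((46 * u : ℕ) : ℝ) ≤ (n : ℝ) ^ (1 / 6 : ℝ) := by
      rw [one_div,
        Real.le_rpow_inv_iff_of_pos (Nat.cast_nonneg _) (Nat.cast_nonneg _) (by norm_num),
        show (6 : ℝ) = (6 : ℕ) by norm_num, Real.rpow_natCast]
      have : (46 * u) ^ 6 ≤ n := by
        rw [mul_pow]
        exact (Nat.mul_le_mul_right _ (by norm_num)).trans h3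
      exact_mod_cast this
    have a3 : (1000000 : ℝ) ≤ u := by exact_mod_cast (by omega : 1000000 ≤ u)
    push_cast at a1 a2
    linarith

end Pool.Agent.Results.MP_f6c7cf_nt.ManySquares
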