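import Pool.Agent.Lib.MP_f6c7cf_nt.E.Cone
import Pool.Agent.Lib.MP_f6c7cf_nt.NC.Cls

/-!
A covering obstruction needs an inert prime `p` dividing an explicit linear form in `n` whose
square divides orders of 2 outside two free classes of primes.
-/

namespace Pool.Agent.Results.MP_f6c7cf_nt.NoCoverPlanes

open Pool.Agent.Lib.MP_f6c7cf_nt.E

/-- The order of 2 modulo `q` is divisible by 4 and has the largest 2-adic valuation in `Q`. -/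
def Top (Q : Finset ℕ) (q : ℕ) : Prop :=
  4 ∣ orderOf (2 : ZMod q) ∧
    ∀ r ∈ Q, ∀ k : ℕ, 2 ^ k ∣ orderOf (2 : ZMod r) → 2 ^ k ∣ orderOf (2 : ZMod q)

/-- For every prime `p` dividing `D` with `-d` a non-square modulo `p`, the primes of `Q` whose
order of 2 is divisible by `p ^ 2` are all `3 mod 4`, or all of top valuation. -/
def Free (Q : Finset ℕ) (D d : ℕ) : Prop :=
  ∀ p : ℕ, p.Prime → p ∣ D → ¬ IsSquare (-(d : ZMod p)) →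
    (∀ q ∈ Q, p ^ 2 ∣ orderOf (2 : ZMod q) → q % 4 = 3) ∨
      ∀ q ∈ Q, p ^ 2 ∣ orderOf (2 : ZMod q) → Top Q q

/-- Every prime `p` dividing `D` whose square divides the order of 2 modulo a prime of `Q`
has `-d` as a square modulo `p`. -/
def Good (Q : Finset ℕ) (D d : ℕ) : Prop :=
  ∀ q ∈ Q, ∀ p : ℕ, p.Prime → p ^ 2 ∣ orderOf (2 : ZMod q) → p ∣ D → IsSquare (-(d : ZMod p))

lemma finish {Q : Finset ℕ} (hQ : ∀ q ∈ Q, q.Prime ∧ q ≠ 2) {M n : ℕ} (hM : Even M) {c : O}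
    (hev : Even c.imK)
    (hq : ∀ x y z : ℕ, (x : ℤ) ≡ c.re [ZMOD (M : ℤ)] → (y : ℤ) ≡ c.imI [ZMOD (M : ℤ)] →
      (z : ℤ) ≡ c.imJ [ZMOD (M : ℤ)] → ∀ q ∈ Q, ¬ q ∣ 2 ^ x + 2 ^ y + 2 ^ z + 1)
    (hN : ∃ v : O, N v = n ∧ Cg M v c ∧ 0 < v.re ∧ 0 < v.imI ∧ 0 < v.imJ ∧ 0 < v.imK) :
    ∃ x y z w : ℕ, n = x ^ 2 + y ^ 2 + z ^ 2 + 4 * w ^ 2 ∧
      Nat.Coprime (2 ^ x + 2 ^ y + 2 ^ z + 1) (2 * ∏ q ∈ Q, q) := by
  obtain ⟨v, hv, ⟨t, ht⟩, p0, p1, p2, p3⟩ := hN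
  have e0 : v.re - c.re = M * t.re := by simpa using congrArg (·.re) ht
  have e1 : v.imI - c.imI = M * t.imI := by simpa using congrArg (·.imI) ht
  have e2 : v.imJ - c.imJ = M * t.imJ := by simpa using congrArg (·.imJ) ht
  have e3 : v.imK - c.imK = M * t.imK := by simpa using congrArg (·.imK) ht
  obtain ⟨x, hx⟩ := Int.eq_ofNat_of_zero_le p0.le
  obtain ⟨y, hy⟩ := Int.eq_ofNat_of_zero_le p1.le
  obtain ⟨z, hz⟩ := Int.eq_ofNat_of_zero_le p2.le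
  have hw : Even v.imK := by
    have : v.imK = c.imK + M * t.imK := by linarith
    rw [this]
    exact hev.add (((Int.even_coe_nat M).mpr hM).mul_right _)
  obtain ⟨w', hw'⟩ := hw
  obtain ⟨w, hw⟩ := Int.eq_ofNat_of_zero_le (show 0 ≤ w' by linarith)
  refine ⟨x, y, z, w, ?_, Nat.Coprime.mul_right ?_ (Nat.Coprime.prod_right fun q hq' => ?_)⟩
  · have e : v.re ^ 2 + v.imI ^ 2 + v.imJ ^ 2 + v.imK ^ 2 = n := by
      rw [← Quaternion.normSq_def']; exact hv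
    rw [hx, hy, hz, hw', hw] at e
    have : (n : ℤ) = x ^ 2 + y ^ 2 + z ^ 2 + 4 * w ^ 2 := by linarith
    exact_mod_cast this
  · have ev : ∀ a : ℕ, (0 : ℤ) < a → Even (2 ^ a) := fun a ha =>
      (Nat.even_pow.mpr ⟨even_two, by omega⟩)
    exact Nat.coprime_two_right.mpr
      ((((ev x (hx ▸ p0)).add (ev y (hy ▸ p1))).add (ev z (hz ▸ p2))).add_one)
  · refine ((Nat.Prime.coprime_iff_not_dvd (hQ q hq').1).mpr (hq x y z ?_ ?_ ?_ q hq')).symm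
    · exact (Int.modEq_iff_dvd.mpr ⟨t.re, by rw [← hx]; linarith⟩).symm
    · exact (Int.modEq_iff_dvd.mpr ⟨t.imI, by rw [← hy]; linarith⟩).symm
    · exact (Int.modEq_iff_dvd.mpr ⟨t.imJ, by rw [← hz]; linarith⟩).symm

theorem result (Q : Finset ℕ) (hQ : ∀ q ∈ Q, q.Prime ∧ q ≠ 2) :
    ∃ N₀ : ℕ, ∀ n : ℕ, N₀ ≤ n →
      ((n % 4 = 1 ∧ Free Q (5 * n - 4) 5) ∨
        (n % 4 = 3 ∧ Free Q (3 * n - 8) 3 ∧ (n % 5 = 1 → 41 ∈ Q → Top Q 41)) ∨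
        (n % 12 = 7 ∧ Good Q (29 * n - 6) 29) ∨
        (n % 12 = 3 ∧ Good Q (9 * n - 2) 1) ∨
        (n % 12 = 11 ∧ Good Q (3 * (9 * n - 2)) 1)) →
      ∃ x y z w : ℕ, n = x ^ 2 + y ^ 2 + z ^ 2 + 4 * w ^ 2 ∧
        Nat.Coprime (2 ^ x + 2 ^ y + 2 ^ z + 1) (2 * ∏ q ∈ Q, q) := by
  obtain ⟨M, hM, hM0, hL⟩ := local_class Q hQ
  obtain ⟨N₀, hN⟩ := cone hM hM0
  have hM' : Even (4 * Q.lcm Pool.Agent.Lib.MP_f6c7cf_nt.NC.od) := (by decide : Even 4).mul_right _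
  have hM0' : 4 * Q.lcm Pool.Agent.Lib.MP_f6c7cf_nt.NC.od ≠ 0 := by
    refine mul_ne_zero (by norm_num) ?_
    rw [Ne, Finset.lcm_eq_zero_iff]
    rintro ⟨q, hq, hq0⟩
    exact Pool.Agent.Lib.MP_f6c7cf_nt.NC.od_ne (hQ q hq) hq0
  obtain ⟨N₁, hN'⟩ := cone hM' hM0'
  refine ⟨max N₀ N₁, fun n hn H => ?_⟩
  have ho : Odd n := Nat.odd_iff.mpr (by omega)
  have old : Good Q (D n) (δ n) → ∃ x y z w : ℕ, n = x ^ 2 + y ^ 2 + z ^ 2 + 4 * w ^ 2 ∧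
      Nat.Coprime (2 ^ x + 2 ^ y + 2 ^ z + 1) (2 * ∏ q ∈ Q, q) := fun h => by
    obtain ⟨c, hc, hcn, hev, hq⟩ := hL n ho h
    exact finish hQ hM hev hq (hN n (le_of_max_le_left hn) ho c hc hcn)
  rcases H with ⟨a, h⟩ | ⟨a, h, h'⟩ | ⟨a, h⟩ | ⟨a, h⟩ | ⟨a, h⟩
  · obtain ⟨c, hc, hcn, hev, hq⟩ := Pool.Agent.Lib.MP_f6c7cf_nt.NC.cls₁ Q hQ n a
      fun p hp hd hs => h p hp hd (by exact_mod_cast hs)
    exact finish hQ hM' hev hq (hN' n (le_of_max_le_right hn) ho c hc hcn)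
  · obtain ⟨c, hc, hcn, hev, hq⟩ := Pool.Agent.Lib.MP_f6c7cf_nt.NC.cls₂ Q hQ n a h'
      fun p hp hd hs => h p hp hd (by exact_mod_cast hs)
    exact finish hQ hM' hev hq (hN' n (le_of_max_le_right hn) ho c hc hcn)
  · have e1 : ¬ n % 4 = 1 := by omega
    have e2 : n % 3 = 1 := by omega
    exact old (by simpa only [D, δ, if_neg e1, if_pos e2] using h)
  · have e1 : ¬ n % 4 = 1 := by omega
    have e2 : ¬ n % 3 = 1 := by omega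
    have e3 : n % 3 = 0 := by omega
    exact old (by simpa only [D, δ, if_neg e1, if_neg e2, if_pos e3] using h)
  · have e1 : ¬ n % 4 = 1 := by omega
    have e2 : ¬ n % 3 = 1 := by omega
    have e3 : ¬ n % 3 = 0 := by omega
    exact old (by simpa only [D, δ, if_neg e1, if_neg e2, if_neg e3] using h)

end Pool.Agent.Results.MP_f6c7cf_nt.NoCoverPlanes
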