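import Pool.Agent.Lib.MP_f6c7cf_nt.SI.Main

/-! Every binary polynomial of large degree `n` is within Hamming distance `0.22 n` of an
irreducible polynomial of the same degree. -/

namespace Pool.Agent.Results.MP_f6c7cf_nt.SparseIrreducible

theorem result : ∃ N : ℕ, ∀ n ≥ N, ∀ f : Polynomial (ZMod 2), f.natDegree = n →
    ∃ g : Polynomial (ZMod 2), Irreducible g ∧ g.natDegree = n ∧
      50 * (g - f).support.card ≤ 11 * n :=
  Pool.Agent.Lib.MP_f6c7cf_nt.SI.main

end Pool.Agent.Results.MP_f6c7cf_nt.SparseIrreducible
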